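import Pool.Agent.Lib.MP_89fcdb_gt.Interfaces

/-!
# MP_89fcdb_gt, module TS3: the punctured three-sphere
-/

open Set Topology

namespace Pool.Agent.Lib.MP_89fcdb_gt.H52

noncomputable section

/-- The base point. -/
def e3 : S3 := ⟨(1, 0), by simp⟩

theorem s3_eq (p : S3) : p.1.1.re ^ 2 + p.1.1.im ^ 2 + p.1.2.re ^ 2 + p.1.2.im ^ 2 = 1 := by
  have h := p.2
  rw [Complex.normSq_apply, Complex.normSq_apply] at h
  linear_combination h

/-- Left multiplication by a unit quaternion. -/
def rot (q : S3) : S3 ≃ₜ S3 where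
  toFun p := ⟨(q.1.1 * p.1.1 - (starRingEnd ℂ) q.1.2 * p.1.2,
    q.1.2 * p.1.1 + (starRingEnd ℂ) q.1.1 * p.1.2), by
      have h1 := s3_eq q
      have h2 := s3_eq p
      simp only [Complex.normSq_apply, Complex.sub_re, Complex.mul_re, Complex.conj_re,
        Complex.conj_im, Complex.sub_im, Complex.mul_im, Complex.add_re, Complex.add_im]
      linear_combination (p.1.1.re ^ 2 + p.1.1.im ^ 2 + p.1.2.re ^ 2 + p.1.2.im ^ 2) * h1 + h2⟩
  invFun p := ⟨((starRingEnd ℂ) q.1.1 * p.1.1 + (starRingEnd ℂ) q.1.2 * p.1.2,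
    - q.1.2 * p.1.1 + q.1.1 * p.1.2), by
      have h1 := s3_eq q
      have h2 := s3_eq p
      simp only [Complex.normSq_apply, Complex.neg_re, Complex.neg_im, Complex.mul_re,
        Complex.conj_re, Complex.conj_im, Complex.mul_im, Complex.add_re, Complex.add_im]
      linear_combination (p.1.1.re ^ 2 + p.1.1.im ^ 2 + p.1.2.re ^ 2 + p.1.2.im ^ 2) * h1 + h2⟩
  left_inv p := by
    have h1 := s3_eq q
    apply Subtype.ext
    apply Prod.ext
    · apply Complex.ext
      · simp only [Complex.sub_re, Complex.mul_re, Complex.conj_re,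
          Complex.conj_im, Complex.sub_im, Complex.mul_im, Complex.add_re, Complex.add_im]
        linear_combination p.1.1.re * h1
      · simp only [Complex.sub_re, Complex.mul_re, Complex.conj_re,
          Complex.conj_im, Complex.sub_im, Complex.mul_im, Complex.add_re, Complex.add_im]
        linear_combination p.1.1.im * h1
    · apply Complex.ext
      · simp only [Complex.sub_re, Complex.mul_re, Complex.conj_re, Complex.neg_re,
          Complex.neg_im,
          Complex.conj_im, Complex.sub_im, Complex.mul_im, Complex.add_re, Complex.add_im]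
        linear_combination p.1.2.re * h1
      · simp only [Complex.sub_re, Complex.mul_re, Complex.conj_re, Complex.neg_re,
          Complex.neg_im,
          Complex.conj_im, Complex.sub_im, Complex.mul_im, Complex.add_re, Complex.add_im]
        linear_combination p.1.2.im * h1
  right_inv p := by
    have h1 := s3_eq q
    apply Subtype.ext
    apply Prod.ext
    · apply Complex.ext
      · simp only [Complex.sub_re, Complex.mul_re, Complex.conj_re, Complex.neg_re,
          Complex.neg_im,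
          Complex.conj_im, Complex.sub_im, Complex.mul_im, Complex.add_re, Complex.add_im]
        linear_combination p.1.1.re * h1
      · simp only [Complex.sub_re, Complex.mul_re, Complex.conj_re, Complex.neg_re,
          Complex.neg_im,
          Complex.conj_im, Complex.sub_im, Complex.mul_im, Complex.add_re, Complex.add_im]
        linear_combination p.1.1.im * h1
    · apply Complex.ext
      · simp only [Complex.sub_re, Complex.mul_re, Complex.conj_re, Complex.neg_re,
          Complex.neg_im,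
          Complex.conj_im, Complex.sub_im, Complex.mul_im, Complex.add_re, Complex.add_im]
        linear_combination p.1.2.re * h1
      · simp only [Complex.sub_re, Complex.mul_re, Complex.conj_re, Complex.neg_re,
          Complex.neg_im,
          Complex.conj_im, Complex.sub_im, Complex.mul_im, Complex.add_re, Complex.add_im]
        linear_combination p.1.2.im * h1
  continuous_toFun := by
    refine Continuous.subtype_mk (Continuous.prodMk ?_ ?_) _
    · fun_prop
    · fun_prop
  continuous_invFun := by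
    refine Continuous.subtype_mk (Continuous.prodMk ?_ ?_) _
    · fun_prop
    · fun_prop

theorem rot_e3 (q : S3) : rot q e3 = q := by
  apply Subtype.ext
  apply Prod.ext
  · show q.1.1 * 1 - (starRingEnd ℂ) q.1.2 * 0 = q.1.1
    ring
  · show q.1.2 * 1 + (starRingEnd ℂ) q.1.1 * 0 = q.1.2
    ring

theorem rot_neg_e3 (q : S3) : rot q (TS3.τ e3) = TS3.τ q := by
  apply Subtype.ext
  apply Prod.ext
  · show q.1.1 * (-1) - (starRingEnd ℂ) q.1.2 * (-0) = -q.1.1
    ring
  · show q.1.2 * (-1) + (starRingEnd ℂ) q.1.1 * (-0) = -q.1.2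
    ring

/-- The squared length. -/
def sq3 (t : Fin 3 → ℝ) : ℝ := t 0 ^ 2 + t 1 ^ 2 + t 2 ^ 2

theorem sq3_pos (t : Fin 3 → ℝ) : 0 < 1 + sq3 t := by
  unfold sq3
  positivity

/-- Inverse stereographic projection. -/
def j0 (t : Fin 3 → ℝ) : S3 :=
  ⟨(⟨(1 - sq3 t) / (1 + sq3 t), 2 * t 0 / (1 + sq3 t)⟩,
    ⟨2 * t 1 / (1 + sq3 t), 2 * t 2 / (1 + sq3 t)⟩), by
      have h := (sq3_pos t).ne'
      simp only [Complex.normSq_mk]
      field_simp
      unfold sq3
      ring⟩

/-- Stereographic projection. -/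
def k0 (p : S3) : Fin 3 → ℝ :=
  ![p.1.1.im / (1 + p.1.1.re), p.1.2.re / (1 + p.1.1.re), p.1.2.im / (1 + p.1.1.re)]

theorem re_ne (p : S3) (hp : p ≠ TS3.τ e3) : 1 + p.1.1.re ≠ 0 := by
  intro h
  apply hp
  have h0 : p.1.1.re = -1 := by linarith
  have h1 := s3_eq p
  rw [h0] at h1
  have h2 : p.1.1.im = 0 := by nlinarith [sq_nonneg p.1.1.im, sq_nonneg p.1.2.re, sq_nonneg p.1.2.im]
  have h3 : p.1.2.re = 0 := by nlinarith [sq_nonneg p.1.1.im, sq_nonneg p.1.2.re, sq_nonneg p.1.2.im]
  have h4 : p.1.2.im = 0 := by nlinarith [sq_nonneg p.1.1.im, sq_nonneg p.1.2.re, sq_nonneg p.1.2.im]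
  apply Subtype.ext
  apply Prod.ext
  · apply Complex.ext
    · rw [h0]; show (-1 : ℝ) = (-(1 : ℂ)).re; simp
    · rw [h2]; show (0 : ℝ) = (-(1 : ℂ)).im; simp
  · apply Complex.ext
    · rw [h3]; show (0 : ℝ) = (-(0 : ℂ)).re; simp
    · rw [h4]; show (0 : ℝ) = (-(0 : ℂ)).im; simp

theorem k0_j0 (t : Fin 3 → ℝ) : k0 (j0 t) = t := by
  have h := (sq3_pos t).ne'
  have h1 : 1 + (1 - sq3 t) / (1 + sq3 t) = 2 / (1 + sq3 t) := by
    field_simp
    ring
  funext i
  fin_cases i
  · show 2 * t 0 / (1 + sq3 t) / (1 + (1 - sq3 t) / (1 + sq3 t)) = t 0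
    rw [h1]
    field_simp
  · show 2 * t 1 / (1 + sq3 t) / (1 + (1 - sq3 t) / (1 + sq3 t)) = t 1
    rw [h1]
    field_simp
  · show 2 * t 2 / (1 + sq3 t) / (1 + (1 - sq3 t) / (1 + sq3 t)) = t 2
    rw [h1]
    field_simp

theorem j0_k0 (p : S3) (hp : p ≠ TS3.τ e3) : j0 (k0 p) = p := by
  have h := re_ne p hp
  have h1 := s3_eq p
  have h2 : sq3 (k0 p) = (1 - p.1.1.re) / (1 + p.1.1.re) := by
    show (p.1.1.im / (1 + p.1.1.re)) ^ 2 + (p.1.2.re / (1 + p.1.1.re)) ^ 2
      + (p.1.2.im / (1 + p.1.1.re)) ^ 2 = _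
    field_simp
    linear_combination h1
  have h3 : 1 + sq3 (k0 p) = 2 / (1 + p.1.1.re) := by
    rw [h2]
    field_simp
    ring
  apply Subtype.ext
  apply Prod.ext
  · apply Complex.ext
    · show (1 - sq3 (k0 p)) / (1 + sq3 (k0 p)) = p.1.1.re
      rw [h3, h2]
      field_simp
      ring
    · show 2 * (p.1.1.im / (1 + p.1.1.re)) / (1 + sq3 (k0 p)) = p.1.1.im
      rw [h3]
      field_simp
  · apply Complex.ext
    · show 2 * (p.1.2.re / (1 + p.1.1.re)) / (1 + sq3 (k0 p)) = p.1.2.re
      rw [h3]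
      field_simp
    · show 2 * (p.1.2.im / (1 + p.1.1.re)) / (1 + sq3 (k0 p)) = p.1.2.im
      rw [h3]
      field_simp

theorem j0_ne (t : Fin 3 → ℝ) : j0 t ≠ TS3.τ e3 := by
  intro h
  have h1 : (j0 t).1.1.re = -1 := by
    rw [h]
    show (-(1 : ℂ)).re = -1
    simp
  have h2 : (1 - sq3 t) / (1 + sq3 t) = -1 := h1
  have h3 := (sq3_pos t).ne'
  rw [div_eq_iff h3] at h2
  linarith

theorem continuous_mk {X : Type} [TopologicalSpace X] {f g : X → ℝ} (hf : Continuous f)
    (hg : Continuous g) : Continuous fun x => (⟨f x, g x⟩ : ℂ) := by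
  have h : (fun x => (⟨f x, g x⟩ : ℂ)) = fun x => ((f x : ℂ) + (g x : ℂ) * Complex.I) := by
    funext x
    exact Complex.mk_eq_add_mul_I _ _
  rw [h]
  fun_prop

theorem continuous_j0 : Continuous j0 := by
  have h : ∀ t : Fin 3 → ℝ, 1 + sq3 t ≠ 0 := fun t => (sq3_pos t).ne'
  have hs : Continuous sq3 := by unfold sq3; fun_prop
  refine Continuous.subtype_mk (Continuous.prodMk (continuous_mk ?_ ?_) (continuous_mk ?_ ?_)) _
  · exact Continuous.div (by fun_prop) (by fun_prop) h
  · exact Continuous.div (by fun_prop) (by fun_prop) h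
  · exact Continuous.div (by fun_prop) (by fun_prop) h
  · exact Continuous.div (by fun_prop) (by fun_prop) h

theorem continuousOn_k0 : ContinuousOn k0 {p : S3 | p ≠ TS3.τ e3} := by
  rw [continuousOn_pi]
  intro i
  fin_cases i
  · show ContinuousOn (fun p : S3 => p.1.1.im / (1 + p.1.1.re)) _
    exact ContinuousOn.div (by fun_prop) (by fun_prop) fun p hp => re_ne p hp
  · show ContinuousOn (fun p : S3 => p.1.2.re / (1 + p.1.1.re)) _
    exact ContinuousOn.div (by fun_prop) (by fun_prop) fun p hp => re_ne p hp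
  · show ContinuousOn (fun p : S3 => p.1.2.im / (1 + p.1.1.re)) _
    exact ContinuousOn.div (by fun_prop) (by fun_prop) fun p hp => re_ne p hp

/-- The chart. -/
def chart0 : OpenPartialHomeomorph (Fin 3 → ℝ) S3 where
  toFun := j0
  invFun := k0
  source := univ
  target := {p | p ≠ TS3.τ e3}
  map_source' t _ := j0_ne t
  map_target' _ _ := trivial
  left_inv' t _ := k0_j0 t
  right_inv' p hp := j0_k0 p hp
  open_source := isOpen_univ
  open_target := isOpen_ne
  continuousOn_toFun := continuous_j0.continuousOn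
  continuousOn_invFun := continuousOn_k0

theorem j0_emb : IsOpenEmbedding j0 := chart0.to_isOpenEmbedding rfl

theorem range_j0 : range j0 = {p : S3 | p ≠ TS3.τ e3} := by
  ext p
  constructor
  · rintro ⟨t, rfl⟩
    exact j0_ne t
  · intro hp
    exact ⟨k0 p, j0_k0 p hp⟩

theorem j0_zero : j0 0 = e3 := by
  apply Subtype.ext
  apply Prod.ext
  · apply Complex.ext
    · show (1 - sq3 0) / (1 + sq3 0) = (1 : ℂ).re
      simp [sq3]
    · show 2 * (0 : ℝ) / (1 + sq3 0) = (1 : ℂ).im
      simp
  · apply Complex.ext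
    · show 2 * (0 : ℝ) / (1 + sq3 0) = (0 : ℂ).re
      simp
    · show 2 * (0 : ℝ) / (1 + sq3 0) = (0 : ℂ).im
      simp

/-- Module TS3. -/
theorem trivS3 : TrivS3Statement := by
  intro q
  refine ⟨rot q ∘ j0, (rot q).isOpenEmbedding.comp j0_emb, ?_, ?_⟩
  · rw [Function.comp_apply, j0_zero, rot_e3]
  · rw [range_comp, range_j0]
    ext p
    constructor
    · rintro ⟨p', hp', rfl⟩ h
      rw [← rot_neg_e3] at h
      exact hp' ((rot q).injective h)
    · intro hp
      refine ⟨(rot q).symm p, ?_, (rot q).apply_symm_apply p⟩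
      intro h
      apply hp
      rw [← rot_neg_e3, ← h, (rot q).apply_symm_apply]

end

end Pool.Agent.Lib.MP_89fcdb_gt.H52
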